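import Pool.Agent.Helper780_CP.FlatT
import Pool.Agent.Helper780_CP.Stable
import Pool.Agent.Helper780_CP.AvgT

set_option autoImplicit false

open MeasureTheory
open Pool.Agent.Helper985.CP Pool.Agent.Helper780_CP

namespace Pool.Agent.Results.MP_43dd88_mp.GibbsPotential

/-- In equilibrium states at a positive temperature of neutral Coulomb matter in a cube the mean
potential is constant up to `C (1 + mean inverse square distance to the nearest particle)`. -/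
theorem result {S : Type} [Fintype S] [DecidableEq S] (D : Species S) (hD : D.Valid)
    (hf : ∀ s, D.charge s < 0 → D.fermion s = true) (δ T ρ₁ ρ₂ : ℝ) (hδ : 0 < δ) (hT : 0 < T)
    (hρ₁ : 0 < ρ₁) (hρ₂ : 0 < ρ₂) :
    ∃ C : ℝ, 0 < C ∧ ∀ (n : S → ℕ) (ℓ : ℝ), 0 < ℓ → ρ₁ * ℓ ^ 3 ≤ ∑ s, (n s : ℝ) →
      ∑ s, (n s : ℝ) ≤ ρ₂ * ℓ ^ 3 → ∑ s, (n s : ℝ) * D.charge s = 0 →
      ∀ (k : ℕ) (ψ : Fin k → Wave D (Σ s, Fin (n s))), Ortho D Sigma.fst ℓ ψ →
      ∀ p : Fin k → ℝ, (∀ j, 0 ≤ p j) → ∑ j, p j = 1 →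
      ∑ j, (p j * energy D Sigma.fst (ψ j) + T * (p j * Real.log (p j))) ≤
        freeEnergy D ℓ T n + 1 →
      ∃ U : ℝ, (∀ y, Metric.closedBall y δ ⊆ cube ℓ →
          |∑ j, p j * phim D Sigma.fst (ψ j) y - U| ≤
            C * (1 + ∑ j, p j * wm D (near2 y) (ψ j))) ∧
        ∀ K : ℝ, 0 < K → volume {y | Metric.closedBall y δ ⊆ cube ℓ ∧
          K ≤ |∑ j, p j * phim D Sigma.fst (ψ j) y - U|} ≤
            ENNReal.ofReal (C * ℓ ^ 3 / K) := by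
  obtain ⟨C, hC, H⟩ := flatT D hD (hstable D hD hf) δ T (1 / ρ₁) ρ₂ hδ hT (by positivity) hρ₂
  obtain ⟨κ, hκ⟩ : ∃ κ, κ = ∫ z, kk z := ⟨_, rfl⟩
  have hκ0 : 0 ≤ κ := by rw [hκ]; exact integral_nonneg fun z => kk_nonneg z
  refine ⟨2 * C * (1 + κ * ρ₂) + C, by positivity, ?_⟩
  intro n ℓ hℓ hn1 hn2 hn k ψ hψ p hp hp1 he
  have hcard : (Fintype.card (Σ s, Fin (n s)) : ℝ) = ∑ s, (n s : ℝ) := by
    rw [Fintype.card_sigma]; simp
  have hneu : ∑ i : (Σ s, Fin (n s)), D.charge i.1 = 0 := by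
    rw [Fintype.sum_sigma, ← hn]
    refine Finset.sum_congr rfl fun s _ => ?_
    simp
  have hV : ℓ ^ 3 ≤ 1 / ρ₁ * (Fintype.card (Σ s, Fin (n s)) : ℝ) := by
    rw [hcard, div_mul_eq_mul_div, le_div_iff₀ hρ₁]
    linarith
  obtain ⟨U, hU⟩ := H (Sigma.fst : (Σ s, Fin (n s)) → S) ℓ hℓ hV (by rw [hcard]; exact hn2) hneu
    ψ hψ p hp hp1 he
  have hnr : ∀ j, nrm2 D (ψ j) = 1 := by
    intro j
    rw [(rb_nrm_cs D (ψ j) (ψ j)).1, hψ.2 j j, if_pos rfl]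
    simp
  refine ⟨U, fun y hy => (hU y hy).trans ?_, fun K hK => ?_⟩
  · refine mul_le_mul_of_nonneg_right ?_ ?_
    · have : 0 ≤ 2 * C * (1 + κ * ρ₂) := by positivity
      linarith
    · have : 0 ≤ ∑ j, p j * wm D (near2 y) (ψ j) :=
        Finset.sum_nonneg fun j _ => mul_nonneg (hp j) (wmn_nonneg D (ψ j) y)
      linarith
  have hball : ∀ y : E3, Metric.closedBall y δ ⊆ cube ℓ → y ∈ cube ℓ := fun y hy =>
    hy (Metric.mem_closedBall_self hδ.le)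
  have h3 : 0 < ℓ ^ 3 := by positivity
  by_cases hKC : K ≤ 2 * C
  · have hsub : {y | Metric.closedBall y δ ⊆ cube ℓ ∧
        K ≤ |∑ j, p j * phim D (Sigma.fst : (Σ s, Fin (n s)) → S) (ψ j) y - U|} ⊆ cube ℓ :=
      fun y hy => hball y hy.1
    refine (measure_mono hsub).trans ?_
    rw [rb_ip_XX_vol ℓ hℓ]
    refine ENNReal.ofReal_le_ofReal ?_
    rw [le_div_iff₀ hK]
    calc ℓ ^ 3 * K ≤ ℓ ^ 3 * (2 * C) := mul_le_mul_of_nonneg_left hKC h3.le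
      _ = (2 * C) * ℓ ^ 3 := by ring
      _ ≤ (2 * C * (1 + κ * ρ₂) + C) * ℓ ^ 3 := by
          refine mul_le_mul_of_nonneg_right ?_ h3.le
          have : 0 ≤ 2 * C * (κ * ρ₂) := by positivity
          linarith
  · rw [not_le] at hKC
    have hsub : {y | Metric.closedBall y δ ⊆ cube ℓ ∧
        K ≤ |∑ j, p j * phim D (Sigma.fst : (Σ s, Fin (n s)) → S) (ψ j) y - U|} ⊆
        {y | y ∈ cube ℓ ∧ K / (2 * C) ≤ ∑ j, p j * wm D (near2 y) (ψ j)} := by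
      rintro y ⟨hy, hKy⟩
      refine ⟨hball y hy, ?_⟩
      have h2 := hKy.trans (hU y hy)
      have h3 : K / C ≤ 1 + ∑ j, p j * wm D (near2 y) (ψ j) := by
        rw [div_le_iff₀ hC]
        linarith
      have h4 : 1 < K / (2 * C) := by
        rw [lt_div_iff₀ (by positivity)]
        linarith
      have h5 : K / C = 2 * (K / (2 * C)) := by field_simp
      linarith
    refine (measure_mono hsub).trans ?_
    refine (cost_markovT D (Sigma.fst : (Σ s, Fin (n s)) → S) ℓ hℓ ψ hψ.1 hnr p hp hp1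
      (K / (2 * C)) (by positivity)).trans ?_
    refine ENNReal.ofReal_le_ofReal ?_
    rw [hcard, ← hκ, div_div_eq_mul_div]
    refine div_le_div_of_nonneg_right ?_ hK.le
    have h4 : ℓ ^ 3 + κ * ∑ s, (n s : ℝ) ≤ (1 + κ * ρ₂) * ℓ ^ 3 := by
      have := mul_le_mul_of_nonneg_left hn2 hκ0
      linarith
    calc (ℓ ^ 3 + κ * ∑ s, (n s : ℝ)) * (2 * C) ≤ ((1 + κ * ρ₂) * ℓ ^ 3) * (2 * C) :=
          mul_le_mul_of_nonneg_right h4 (by positivity)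
      _ = (2 * C * (1 + κ * ρ₂)) * ℓ ^ 3 := by ring
      _ ≤ _ := mul_le_mul_of_nonneg_right (by linarith) h3.le

end Pool.Agent.Results.MP_43dd88_mp.GibbsPotential
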