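import Pool.Agent.Helper780_CP.Flat0
import Pool.Agent.Helper780_CP.Stable
import Pool.Agent.Helper780_CP.Avg

set_option autoImplicit false

open MeasureTheory
open Pool.Agent.Helper985.CP Pool.Agent.Helper780_CP

namespace Pool.Agent.Results.MP_43dd88_mp.GroundStatePotential

/-- In near ground states of neutral Coulomb matter in a cube the mean potential is constant up to
`C (1 + mean inverse square distance to the nearest particle)`; with a constant that depends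
only on the species and on the distance `δ` to the boundary. -/
theorem result {S : Type} [Fintype S] [DecidableEq S] (D : Species S) (hD : D.Valid)
    (hf : ∀ s, D.charge s < 0 → D.fermion s = true) (δ : ℝ) (hδ : 0 < δ) :
    ∃ C : ℝ, 0 < C ∧ ∀ (n : S → ℕ) (ℓ : ℝ), 0 < ℓ → ∑ s, (n s : ℝ) * D.charge s = 0 →
      ∀ Ψ : Wave D (Σ s, Fin (n s)), IsState D Sigma.fst ℓ Ψ → nrm2 D Ψ = 1 →
      energy D Sigma.fst Ψ ≤ groundEnergy D ℓ n + 1 →
      ∃ U : ℝ, (∀ y, Metric.closedBall y δ ⊆ cube ℓ →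
          |phim D Sigma.fst Ψ y - U| ≤ C * (1 + wm D (near2 y) Ψ)) ∧
        ∀ K : ℝ, 0 < K → volume {y | Metric.closedBall y δ ⊆ cube ℓ ∧
          K ≤ |phim D Sigma.fst Ψ y - U|} ≤
            ENNReal.ofReal (C * (ℓ ^ 3 + ∑ s, (n s : ℝ)) / K) := by
  obtain ⟨C, hC, H⟩ := flat0 D hD (hstable D hD hf) δ hδ
  obtain ⟨κ, hκ⟩ : ∃ κ, κ = ∫ z, kk z := ⟨_, rfl⟩
  have hκ0 : 0 ≤ κ := by rw [hκ]; exact integral_nonneg fun z => kk_nonneg z
  refine ⟨2 * C * (1 + κ) + C, by positivity, ?_⟩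
  intro n ℓ hℓ hn Ψ hΨ h1 he
  have hcard : (Fintype.card (Σ s, Fin (n s)) : ℝ) = ∑ s, (n s : ℝ) := by
    rw [Fintype.card_sigma]; simp
  have hneu : ∑ i : (Σ s, Fin (n s)), D.charge i.1 = 0 := by
    rw [Fintype.sum_sigma, ← hn]
    refine Finset.sum_congr rfl fun s _ => ?_
    simp
  obtain ⟨U, hU⟩ := H (Sigma.fst : (Σ s, Fin (n s)) → S) ℓ hℓ hneu Ψ hΨ h1 he
  have hwn0 : ∀ y, 0 ≤ wm D (near2 y) Ψ := by
    intro y
    unfold wm
    exact Finset.sum_nonneg fun τ _ => integral_nonneg fun x =>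
      mul_nonneg (near2_nonneg y x) (sq_nonneg _)
  refine ⟨U, fun y hy => (hU y hy).trans ?_, fun K hK => ?_⟩
  · refine mul_le_mul_of_nonneg_right ?_ (by have := hwn0 y; linarith)
    have : 0 ≤ 2 * C * (1 + κ) := by positivity
    linarith
  have hball : ∀ y : E3, Metric.closedBall y δ ⊆ cube ℓ → y ∈ cube ℓ := fun y hy =>
    hy (Metric.mem_closedBall_self hδ.le)
  have hS0 : 0 ≤ ∑ s, (n s : ℝ) := Finset.sum_nonneg fun s _ => Nat.cast_nonneg _
  by_cases hKC : K ≤ 2 * C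
  · have hsub : {y | Metric.closedBall y δ ⊆ cube ℓ ∧
        K ≤ |phim D (Sigma.fst : (Σ s, Fin (n s)) → S) Ψ y - U|} ⊆ cube ℓ :=
      fun y hy => hball y hy.1
    refine (measure_mono hsub).trans ?_
    rw [rb_ip_XX_vol ℓ hℓ]
    refine ENNReal.ofReal_le_ofReal ?_
    rw [le_div_iff₀ hK]
    have h3 : 0 < ℓ ^ 3 := by positivity
    calc ℓ ^ 3 * K ≤ ℓ ^ 3 * (2 * C) := mul_le_mul_of_nonneg_left hKC h3.le
      _ = (2 * C) * ℓ ^ 3 := by ring
      _ ≤ (2 * C * (1 + κ) + C) * (ℓ ^ 3 + ∑ s, (n s : ℝ)) := by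
          refine mul_le_mul ?_ (by linarith) h3.le (by positivity)
          have : 0 ≤ 2 * C * κ := by positivity
          linarith
  · rw [not_le] at hKC
    have hsub : {y | Metric.closedBall y δ ⊆ cube ℓ ∧
        K ≤ |phim D (Sigma.fst : (Σ s, Fin (n s)) → S) Ψ y - U|} ⊆
        {y | y ∈ cube ℓ ∧ K / (2 * C) ≤ wm D (near2 y) Ψ} := by
      rintro y ⟨hy, hKy⟩
      refine ⟨hball y hy, ?_⟩
      have h2 := hKy.trans (hU y hy)
      have h3 : K / C ≤ 1 + wm D (near2 y) Ψ := by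
        rw [div_le_iff₀ hC]
        linarith
      have h4 : 1 < K / (2 * C) := by
        rw [lt_div_iff₀ (by positivity)]
        linarith
      have h5 : K / C = 2 * (K / (2 * C)) := by field_simp
      linarith
    refine (measure_mono hsub).trans ?_
    refine (cost_markov D (Sigma.fst : (Σ s, Fin (n s)) → S) ℓ hℓ Ψ hΨ (K / (2 * C))
      (by positivity)).trans ?_
    refine ENNReal.ofReal_le_ofReal ?_
    rw [h1, hcard, ← hκ, mul_one, div_div_eq_mul_div]
    refine div_le_div_of_nonneg_right ?_ hK.le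
    have h3 : 0 < ℓ ^ 3 := by positivity
    have h4 : ℓ ^ 3 + κ * ∑ s, (n s : ℝ) ≤ (1 + κ) * (ℓ ^ 3 + ∑ s, (n s : ℝ)) := by nlinarith
    calc (ℓ ^ 3 + κ * ∑ s, (n s : ℝ)) * (2 * C) ≤
          ((1 + κ) * (ℓ ^ 3 + ∑ s, (n s : ℝ))) * (2 * C) :=
          mul_le_mul_of_nonneg_right h4 (by positivity)
      _ = (2 * C * (1 + κ)) * (ℓ ^ 3 + ∑ s, (n s : ℝ)) := by ring
      _ ≤ _ := mul_le_mul_of_nonneg_right (by linarith) (by positivity)

end Pool.Agent.Results.MP_43dd88_mp.GroundStatePotential
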