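import Pool.Agent.Helper780_CP.Fin3

set_option autoImplicit false

open MeasureTheory
open Pool.Agent.Helper985.CP Pool.Agent.Helper780_CP

namespace Pool.Agent.Results.MP_43dd88_mp.UniformBound

/-- Boundedness of the mean electrostatic potential in Coulomb matter, for ground states and for
thermal equilibrium, at all points of the container. -/
theorem result {S : Type} [Fintype S] [DecidableEq S] (D : Species S) (hD : D.Valid)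
    (hf : ∀ s, D.charge s < 0 → D.fermion s = true) :
    (∀ ρ : ℝ, 0 ≤ ρ → ∃ C : ℝ, 0 < C ∧ ∀ (n : S → ℕ) (ℓ : ℝ), 0 < ℓ →
      ∑ s, (n s : ℝ) ≤ ρ * ℓ ^ 3 → ∑ s, (n s : ℝ) * D.charge s = 0 →
      ∀ y : E3, (∀ k, 0 ≤ y k ∧ y k ≤ ℓ) →
      (∀ Ψ : Wave D (Σ s, Fin (n s)), IsState D Sigma.fst ℓ Ψ → nrm2 D Ψ = 1 →
        energy D Sigma.fst Ψ ≤ groundEnergy D ℓ n + 1 / (1 + ∑ s, (n s : ℝ)) ^ 3 →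
        |phim D Sigma.fst Ψ y| ≤ C) ∧
      ∃ t0 : ℝ, 0 < t0 ∧ ∀ t : ℝ, |t| ≤ t0 →
        |groundEnergyQ D ℓ n y t - groundEnergy D ℓ n| ≤ C * |t|) ∧
    (∀ T ρ₁ ρ₂ : ℝ, 0 < T → 0 < ρ₁ → 0 < ρ₂ → ∃ C : ℝ, 0 < C ∧ ∀ (n : S → ℕ) (ℓ : ℝ), 0 < ℓ →
      ρ₁ * ℓ ^ 3 ≤ ∑ s, (n s : ℝ) → ∑ s, (n s : ℝ) ≤ ρ₂ * ℓ ^ 3 →
      ∑ s, (n s : ℝ) * D.charge s = 0 → ∀ y : E3, (∀ k, 0 ≤ y k ∧ y k ≤ ℓ) →
      (∀ (k : ℕ) (ψ : Fin k → Wave D (Σ s, Fin (n s))), Ortho D Sigma.fst ℓ ψ →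
        ∀ p : Fin k → ℝ, (∀ j, 0 ≤ p j) → ∑ j, p j = 1 →
        ∑ j, (p j * energy D Sigma.fst (ψ j) + T * (p j * Real.log (p j))) ≤
          freeEnergy D ℓ T n + 1 / (1 + ∑ s, (n s : ℝ)) ^ 3 →
        |∑ j, p j * phim D Sigma.fst (ψ j) y| ≤ C) ∧
      ∃ t0 : ℝ, 0 < t0 ∧ ∀ t : ℝ, |t| ≤ t0 →
        |freeEnergyQ D ℓ T n y t - freeEnergy D ℓ T n| ≤ C * |t|) :=
  ⟨fun ρ hρ => q1_zero D hD hf ρ hρ,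
    fun T ρ₁ ρ₂ hT hρ₁ hρ₂ => q1_pos D hD hf T ρ₁ ρ₂ hT hρ₁ hρ₂⟩

end Pool.Agent.Results.MP_43dd88_mp.UniformBound
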